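import Pool.Agent.Helper95.RP.St

/-!
# Project RP (MP_e0fa86): module BG

A bipartite graph with given row sums and balanced column sums.
-/

set_option autoImplicit false

namespace Pool.Agent.Helper15.RP

open Pool.Agent.Helper95.RP Finset
open scoped Classical

/-- row sum -/
noncomputable def rw' (R : Finset (ℕ × ℕ)) (x : ℕ) : ℕ := (R.filter (fun p => p.1 = x)).card

/-- column sum -/
noncomputable def cl' (R : Finset (ℕ × ℕ)) (y : ℕ) : ℕ := (R.filter (fun p => p.2 = y)).card

/-- the switch in row `x` from column `y` to column `y'` -/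
noncomputable def sw' (R : Finset (ℕ × ℕ)) (x y y' : ℕ) : Finset (ℕ × ℕ) :=
  insert (x, y') (R.erase (x, y))

theorem sw_row {R : Finset (ℕ × ℕ)} {x y y' : ℕ} (h : (x, y) ∈ R) (h' : (x, y') ∉ R) (z : ℕ) :
    rw' (sw' R x y y') z = rw' R z := by
  unfold rw' sw'
  by_cases hz : z = x
  · subst hz
    have h1 : (insert (z, y') (R.erase (z, y))).filter (fun p => p.1 = z)
        = insert (z, y') ((R.filter (fun p => p.1 = z)).erase (z, y)) := by
      ext ⟨a, b⟩
      simp only [mem_filter, mem_insert, mem_erase, Prod.mk.injEq]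
      constructor
      · rintro ⟨h1 | h1, h2⟩
        · exact Or.inl h1
        · exact Or.inr ⟨h1.1, h1.2, h2⟩
      · rintro (h1 | h1)
        · exact ⟨Or.inl h1, h1.1⟩
        · exact ⟨Or.inr ⟨h1.1, h1.2.1⟩, h1.2.2⟩
    have hm : (z, y) ∈ R.filter (fun p => p.1 = z) := by simp [h]
    rw [h1, card_insert_of_notMem, card_erase_of_mem hm]
    · have := card_pos.2 ⟨_, hm⟩
      omega
    · simp [h']
  · congr 1
    ext ⟨a, b⟩
    simp only [mem_filter, mem_insert, mem_erase, Prod.mk.injEq]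
    constructor
    · rintro ⟨h1 | h1, h2⟩
      · exact absurd (h2.symm.trans h1.1) hz
      · exact ⟨h1.2, h2⟩
    · rintro ⟨h1, h2⟩
      refine ⟨Or.inr ⟨?_, h1⟩, h2⟩
      intro h3
      exact hz (h2.symm.trans (Prod.mk.inj h3).1)

theorem sw_col_ne {R : Finset (ℕ × ℕ)} {x y y' : ℕ} {z : ℕ} (hz : z ≠ y) (hz' : z ≠ y') :
    cl' (sw' R x y y') z = cl' R z := by
  unfold cl' sw'
  congr 1
  ext ⟨a, b⟩
  simp only [mem_filter, mem_insert, mem_erase, Prod.mk.injEq]
  constructor
  · rintro ⟨h1 | h1, h2⟩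
    · exact absurd (h2.symm.trans h1.2) hz'
    · exact ⟨h1.2, h2⟩
  · rintro ⟨h1, h2⟩
    refine ⟨Or.inr ⟨?_, h1⟩, h2⟩
    intro h3
    exact hz (h2.symm.trans (Prod.mk.inj h3).2)

theorem sw_col_fst {R : Finset (ℕ × ℕ)} {x y y' : ℕ} (h : (x, y) ∈ R) (hne : y ≠ y') :
    cl' (sw' R x y y') y + 1 = cl' R y := by
  unfold cl' sw'
  have h1 : (insert (x, y') (R.erase (x, y))).filter (fun p => p.2 = y)
      = (R.filter (fun p => p.2 = y)).erase (x, y) := by
    ext ⟨a, b⟩
    simp only [mem_filter, mem_insert, mem_erase, Prod.mk.injEq, ne_eq]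
    constructor
    · rintro ⟨h1 | h1, h2⟩
      · exact absurd (h2.symm.trans h1.2) hne
      · exact ⟨h1.1, h1.2, h2⟩
    · rintro ⟨h1, h2, h3⟩
      exact ⟨Or.inr ⟨h1, h2⟩, h3⟩
  have hm : (x, y) ∈ R.filter (fun p => p.2 = y) := by simp [h]
  rw [h1, card_erase_of_mem hm]
  have := card_pos.2 ⟨_, hm⟩
  omega

theorem sw_col_snd {R : Finset (ℕ × ℕ)} {x y y' : ℕ} (h' : (x, y') ∉ R) (hne : y ≠ y') :
    cl' (sw' R x y y') y' = cl' R y' + 1 := by
  unfold cl' sw'
  have h1 : (insert (x, y') (R.erase (x, y))).filter (fun p => p.2 = y')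
      = insert (x, y') (R.filter (fun p => p.2 = y')) := by
    ext ⟨a, b⟩
    simp only [mem_filter, mem_insert, mem_erase, Prod.mk.injEq, ne_eq]
    constructor
    · rintro ⟨h1 | h1, h2⟩
      · exact Or.inl h1
      · exact Or.inr ⟨h1.2, h2⟩
    · rintro (h1 | ⟨h1, h2⟩)
      · exact ⟨Or.inl h1, h1.2⟩
      · refine ⟨Or.inr ⟨?_, h1⟩, h2⟩
        rintro ⟨-, h3⟩
        exact hne (h3.symm.trans h2)
  rw [h1, card_insert_of_notMem]
  simp [h']

theorem hBG : BG := by
  intro m m' a b ha hsum hb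
  set F : Finset (Finset (ℕ × ℕ)) := ((range m ×ˢ range m').powerset).filter
    (fun R => ∀ x ∈ range m, rw' R x = a x) with hF
  have hne : F.Nonempty := by
    refine ⟨(range m ×ˢ range m').filter (fun p => p.2 < a p.1), ?_⟩
    rw [hF, mem_filter, mem_powerset]
    refine ⟨filter_subset _ _, fun x hx => ?_⟩
    unfold rw'
    have h1 : (((range m ×ˢ range m').filter (fun p => p.2 < a p.1)).filter (fun p => p.1 = x))
        = (range (a x)).image (fun y => (x, y)) := by
      ext ⟨u, v⟩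
      simp only [mem_filter, mem_product, mem_range, mem_image, Prod.mk.injEq]
      constructor
      · rintro ⟨⟨h1, h2⟩, h3⟩
        subst h3
        exact ⟨v, h2, rfl, rfl⟩
      · rintro ⟨w, h1, rfl, rfl⟩
        have := ha x hx
        exact ⟨⟨⟨mem_range.1 hx, by omega⟩, h1⟩, rfl⟩
    rw [h1, card_image_of_injective _ (fun y z h => (Prod.mk.inj h).2), card_range]
  obtain ⟨R, hR, hmin⟩ := exists_min_image F
    (fun R => ∑ y ∈ range m', ((cl' R y : ℤ) - b y).natAbs) hne
  rw [hF, mem_filter, mem_powerset] at hR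
  obtain ⟨hsub, hrow⟩ := hR
  refine ⟨R, hsub, hrow, ?_⟩
  by_contra hc
  push Not at hc
  obtain ⟨y0, hy0, hy0'⟩ := hc
  have htot : ∑ y ∈ range m', cl' R y = ∑ y ∈ range m', b y := by
    have h1 : R.card = ∑ y ∈ range m', cl' R y := by
      apply card_eq_sum_card_fiberwise
      intro p hp
      exact (mem_product.1 (hsub hp)).2
    have h2 : R.card = ∑ x ∈ range m, rw' R x := by
      apply card_eq_sum_card_fiberwise
      intro p hp
      exact (mem_product.1 (hsub hp)).1
    rw [← h1, h2, ← hsum]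
    exact sum_congr rfl hrow
  have hy0'' : cl' R y0 ≠ b y0 := hy0'
  obtain ⟨y, hy, hgt⟩ : ∃ y ∈ range m', b y < cl' R y := by
    by_contra hcon
    push Not at hcon
    have := sum_lt_sum (s := range m') (f := cl' R) (g := b) hcon
      ⟨y0, hy0, lt_of_le_of_ne (hcon y0 hy0) hy0''⟩
    omega
  obtain ⟨y', hy', hlt⟩ : ∃ y ∈ range m', cl' R y < b y := by
    by_contra hcon
    push Not at hcon
    have := sum_lt_sum (s := range m') (f := b) (g := cl' R) hcon
      ⟨y0, hy0, lt_of_le_of_ne (hcon y0 hy0) (Ne.symm hy0'')⟩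
    omega
  have hyy : y ≠ y' := by
    rintro rfl
    omega
  have hbb := hb y' hy' y hy
  have hcol : cl' R y' < cl' R y := by omega
  obtain ⟨x, hx, hx'⟩ : ∃ x, (x, y) ∈ R ∧ (x, y') ∉ R := by
    by_contra hcon
    push Not at hcon
    have h1 : cl' R y ≤ cl' R y' := by
      unfold cl'
      apply card_le_card_of_injOn (fun p => (p.1, y'))
      · rintro ⟨u, v⟩ hp
        simp only [coe_filter, Set.mem_setOf_eq] at hp ⊢
        obtain ⟨h1, rfl⟩ := hp
        exact ⟨hcon u h1, trivial⟩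
      · rintro ⟨u, v⟩ hp ⟨u', v'⟩ hp' h
        simp only [coe_filter, Set.mem_setOf_eq] at hp hp'
        simp only [Prod.mk.injEq] at h ⊢
        exact ⟨h.1, hp.2.trans hp'.2.symm⟩
    omega
  have hmem : sw' R x y y' ∈ F := by
    rw [hF, mem_filter, mem_powerset]
    refine ⟨?_, fun z hz => by rw [sw_row hx hx']; exact hrow z hz⟩
    intro p hp
    unfold sw' at hp
    rcases mem_insert.1 hp with rfl | hp
    · exact mem_product.2 ⟨(mem_product.1 (hsub hx)).1, hy'⟩
    · exact hsub (mem_of_mem_erase hp)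
  have h1 := hmin _ hmem
  have h2 : ∑ z ∈ range m', ((cl' (sw' R x y y') z : ℤ) - b z).natAbs
      < ∑ z ∈ range m', ((cl' R z : ℤ) - b z).natAbs := by
    apply sum_lt_sum
    · intro z hz
      by_cases h3 : z = y
      · subst h3
        have := sw_col_fst hx hyy
        omega
      · by_cases h4 : z = y'
        · subst h4
          have := sw_col_snd hx' hyy
          omega
        · rw [sw_col_ne h3 h4]
    · refine ⟨y, hy, ?_⟩
      have := sw_col_fst hx hyy
      omega
  exact absurd h1 (not_le.2 h2)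

end Pool.Agent.Helper15.RP
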